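import Pool.Agent.H442.QFam
import Pool.Agent.H442.Spec3
import Pool.Agent.H442.Disc3
set_option autoImplicit false

/-!
Beilinson's regulator for the integral part of `K_2` of hyperelliptic curves over the rational
numbers: the number of independent classes against the number of moduli.

For monic polynomials `A`, `D` of degrees `g + 1` and `p ≤ g` the curve `y² = A (A + 4 D)`, that is
`z + 1/z = 2 + A(x) / D(x)`, is of genus `g`. For `r p ≤ g` the curves of this form over the
rational numbers which have `r` classes in the integral part of `K_2` with independent regulators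
are Zariski dense in the space of all pairs `(A, D)`; this is a family with `g + p` moduli (all
hyperelliptic curves for `p = g`). For `p = 1`, `r = g` the regulator is surjective.

The members are, up to translations, `D = ∏_{l ≤ p} (x - β_l)`, `β_l` different prime numbers, and
`A = x ∏_{k ≤ r} R_k ∏_i (x - λ_i)` with the monic polynomials `R_k ≡ x^{j_k} mod D` of degree `p`,
with large different exponents `j_k`; the classes are the symbols `{z, R_k(x) / x^{j_k}}`.
-/

namespace Pool.Agent.Results.MP_a09a03_nt.ClassesVersusModuli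

open Polynomial

open Pool.Agent.TH826.MK (KQ Unramified Torus)

open Pool.Agent.H442

/-- Let `p, r ≥ 1` and `r p ≤ g`. For every nonzero polynomial `H` in the `g + 1 + p` coefficients
of a pair of monic polynomials of degrees `g + 1` and `p` there are monic polynomials `A`, `D` in
`ℤ[x]` of degrees `g + 1` and `p`, which are not a zero of `H`, such that `f = A (A + 4 D)` is
squarefree (of degree `2 g + 2`) and for every fraction field `L` of `ℚ[x, y]/(y² - f)` there are
`r` classes in `K_2(L) ⊗ ℚ`, unramified at all discrete valuations of `L`, and `r` loops in the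
spectrum of `L` such that the determinant of the regulators of the classes along the loops is
different from zero. -/
theorem result (g p r : ℕ) (hp : 1 ≤ p) (hr : 1 ≤ r) (hrp : r * p ≤ g)
    (H : MvPolynomial (Fin (g + 1) ⊕ Fin p) ℚ) (hH : H ≠ 0) :
    ∃ A D : ℤ[X], A.Monic ∧ A.natDegree = g + 1 ∧ D.Monic ∧ D.natDegree = p ∧
      MvPolynomial.eval (Sum.elim (fun i : Fin (g + 1) => (A.coeff i : ℚ))
        (fun l : Fin p => (D.coeff l : ℚ))) H ≠ 0 ∧
      ∃ f : ℚ[X], f = (A * (A + 4 * D)).map (Int.castRingHom ℚ) ∧ Squarefree f ∧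
        IsDomain (AdjoinRoot (X ^ 2 - C f : ℚ[X][X])) ∧
        ∀ (L : Type) [Field L] [Algebra (AdjoinRoot (X ^ 2 - C f : ℚ[X][X])) L]
          [IsFractionRing (AdjoinRoot (X ^ 2 - C f : ℚ[X][X])) L],
          ∃ w : Fin r → KQ L 2, (∀ k, w k ∈ Unramified L 2) ∧
            ∃ Γ : Fin r → Torus L 1, (Matrix.of fun i k => (Γ i).reg (w k)).det ≠ 0 := by
  have hpg : p ≤ g := (Nat.le_mul_of_pos_left p hr).trans hrp
  obtain ⟨Δ, hΔ0, hΔ⟩ := exists_discAD (g := g) (p := p) hpg
  have h0 : H * Δ ≠ 0 := mul_ne_zero hH hΔ0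
  have hV : ¬ Van3 r (g - r * p) (H * Δ) := fun h => h0 (dens3 hp (by omega) h)
  unfold Van3 at hV
  push Not at hV
  obtain ⟨β, hβ, hpr, lam, hV⟩ := hV
  have hMm : (∏ i, (X - C (lam i)) : ℤ[X]).Monic := monic_prod_of_monic _ _ fun _ _ =>
    monic_X_sub_C _
  have hMd : (∏ i, (X - C (lam i)) : ℤ[X]).natDegree = g - r * p := by
    rw [natDegree_prod_of_monic _ _ fun _ _ => monic_X_sub_C _]
    simp only [natDegree_X_sub_C, Finset.sum_const, Finset.card_univ, Fintype.card_fin,
      smul_eq_mul, mul_one]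
  obtain ⟨J, hJ⟩ := spec3 hp hβ (fun l => (hpr l).two_le) hMm r (t := 2) (by norm_num)
  obtain ⟨j, hj, hjJ, ν, hne⟩ := hV J
  have h1 := hJ j hj hjJ _ _ rfl rfl 1 1 (ν : ℚ) one_ne_zero one_ne_zero
  -- the polynomials before the translation
  have hAm : (X * (∏ k, Rz β (j k)) * ∏ i, (X - C (lam i)) : ℤ[X]).Monic :=
    (monic_X.mul (monic_prod_of_monic _ _ fun k _ => Rz_monic β (j k))).mul hMm
  have hAd : (X * (∏ k, Rz β (j k)) * ∏ i, (X - C (lam i)) : ℤ[X]).natDegree = g + 1 := by
    rw [(monic_X.mul (monic_prod_of_monic _ _ fun k _ => Rz_monic β (j k))).natDegree_mul hMm,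
      monic_X.natDegree_mul (monic_prod_of_monic _ _ fun k _ => Rz_monic β (j k)), hMd,
      natDegree_X, natDegree_prod_of_monic _ _ fun k _ => Rz_monic β (j k)]
    simp only [Rz_natDegree, Finset.sum_const, Finset.card_univ, Fintype.card_fin, smul_eq_mul]
    omega
  have hDm := Dz_monic β
  have hDd := Dz_natDegree β
  have hAF : AF (fun k => Rz β (j k)) lam ν =
      (X * (∏ k, Rz β (j k)) * ∏ i, (X - C (lam i))).comp (X + C ν) := rfl
  rw [hAF] at hne
  generalize (X * (∏ k, Rz β (j k)) * ∏ i, (X - C (lam i)) : ℤ[X]) = A at *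
  generalize Dz β = D at *
  have hX1 : (X + C ν : ℤ[X]).natDegree = 1 := natDegree_X_add_C ν
  have hA1 : (A.comp (X + C ν)).Monic := hAm.comp (monic_X_add_C ν) (by rw [hX1]; norm_num)
  have hD1 : (D.comp (X + C ν)).Monic := hDm.comp (monic_X_add_C ν) (by rw [hX1]; norm_num)
  have hA2 : (A.comp (X + C ν)).natDegree = g + 1 := by rw [natDegree_comp, hX1, mul_one, hAd]
  have hD2 : (D.comp (X + C ν)).natDegree = p := by rw [natDegree_comp, hX1, mul_one, hDd]
  have hfc : fc 2 (A.map (algebraMap ℤ ℚ)) (D.map (algebraMap ℤ ℚ)) 1 1 (ν : ℚ) =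
      (A.comp (X + C ν) * (A.comp (X + C ν) + 4 * D.comp (X + C ν))).map
        (Int.castRingHom ℚ) := by
    unfold fc
    have e1 : (algebraMap ℤ ℚ) = Int.castRingHom ℚ := rfl
    have e2 : ((4 : ℤ[X]).map (Int.castRingHom ℚ)) = 4 := Polynomial.map_ofNat _ 4
    have e3 : (X + C ν : ℤ[X]).map (Int.castRingHom ℚ) = C 1 * X + C (ν : ℚ) := by
      simp
    rw [e1]
    simp only [Polynomial.map_mul, Polynomial.map_add, e2, Polynomial.map_comp, Polynomial.map_X,
      Polynomial.map_C]
    rw [C_1, one_pow, one_mul, one_mul]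
    have e4 : ((Polynomial.map (Int.castRingHom ℚ) A + ((2 : ℤ) : ℚ[X]) *
        Polynomial.map (Int.castRingHom ℚ) D) ^ 2 - 4 * Polynomial.map (Int.castRingHom ℚ) D ^ 2) =
        Polynomial.map (Int.castRingHom ℚ) A * (Polynomial.map (Int.castRingHom ℚ) A +
          4 * Polynomial.map (Int.castRingHom ℚ) D) := by
      push_cast
      ring
    rw [e4, mul_comp, add_comp, mul_comp, ofNat_comp]
    rfl
  rw [hfc] at h1
  have hne1 := left_ne_zero_of_mul (by rw [← map_mul]; exact hne :
    MvPolynomial.aeval (Sum.elim (fun i : Fin (g + 1) => ((A.comp (X + C ν)).coeff i : ℚ))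
      (fun l : Fin p => ((D.comp (X + C ν)).coeff l : ℚ))) H * MvPolynomial.aeval (Sum.elim
        (fun i : Fin (g + 1) => ((A.comp (X + C ν)).coeff i : ℚ))
        (fun l : Fin p => ((D.comp (X + C ν)).coeff l : ℚ))) Δ ≠ 0)
  have hne2 := right_ne_zero_of_mul (by rw [← map_mul]; exact hne :
    MvPolynomial.aeval (Sum.elim (fun i : Fin (g + 1) => ((A.comp (X + C ν)).coeff i : ℚ))
      (fun l : Fin p => ((D.comp (X + C ν)).coeff l : ℚ))) H * MvPolynomial.aeval (Sum.elim
        (fun i : Fin (g + 1) => ((A.comp (X + C ν)).coeff i : ℚ))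
        (fun l : Fin p => ((D.comp (X + C ν)).coeff l : ℚ))) Δ ≠ 0)
  generalize A.comp (X + C ν) = A₁ at *
  generalize D.comp (X + C ν) = D₁ at *
  have hsq : Squarefree ((A₁ * (A₁ + 4 * D₁)).map (Int.castRingHom ℚ)) := by
    have e2 : ((4 : ℤ[X]).map (Int.castRingHom ℚ)) = 4 := Polynomial.map_ofNat _ 4
    rw [Polynomial.map_mul, Polynomial.map_add, Polynomial.map_mul, e2]
    refine hΔ _ _ (hA1.map _) (by rw [hA1.natDegree_map, hA2]) (hD1.map _)
      (by rw [hD1.natDegree_map, hD2]) ?_
    simp only [coeff_map, eq_intCast]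
    exact hne2
  have hdeg : 0 < ((A₁ * (A₁ + 4 * D₁)).map (Int.castRingHom ℚ)).natDegree := by
    have h2 : (4 * D₁).natDegree < A₁.natDegree := by
      refine lt_of_le_of_lt natDegree_mul_le ?_
      rw [natDegree_ofNat, hD2, hA2]
      omega
    have h3 : (A₁ + 4 * D₁).Monic := hA1.add_of_left (degree_lt_degree h2)
    rw [(hA1.mul h3).natDegree_map, hA1.natDegree_mul h3, hA2]
    omega
  refine ⟨A₁, D₁, hA1, hA2, hD1, hD2, ?_, _, rfl, hsq,
    isDomain_HRing (algebraMap ℚ ℂ) hsq hdeg, ?_⟩
  · rw [MvPolynomial.aeval_def, MvPolynomial.eval₂_eq_eval_map] at hne1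
    simpa using hne1
  · intro L _ _ _
    exact h1 hsq hdeg L

end Pool.Agent.Results.MP_a09a03_nt.ClassesVersusModuli
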