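import Pool.Agent.H442.QFam
import Pool.Agent.H442.Dens
set_option autoImplicit false

/-!
Beilinson's regulator for the integral part of `K_2` of curves of genus 2 over the rational
numbers: the curves `y² = f(x)`, `deg f = 6`, for which there are two (= genus) classes in the
integral part of `K_2` with independent regulators, so that the regulator to the two-dimensional
real Deligne cohomology is surjective, are Zariski dense in the space of all sextics `f`, hence
in the moduli space of the curves of genus 2.

The curves are `z + 1/z = 2 + (X - s^a) (X - s^b) (X - s^c) / X`, `X = (m_0 x + m_1)/(m_2 x + m_3)`,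
with `s` fixed, and the classes are the symbols `{z, (X - s^b)^a / (X - s^a)^b}` and
`{z, (X - s^c)^a / (X - s^a)^c}`.
-/

namespace Pool.Agent.Results.MP_a09a03_nt.GenusTwoZariskiDense

open Polynomial

open Pool.Agent.TH826.MK (KQ Unramified Torus)

open Pool.Agent.H442

/-- For every nonzero polynomial `H` in the seven coefficients of a sextic there is a squarefree
`f ∈ ℚ[x]` of degree 6 whose coefficients are not a zero of `H`, such that for every fraction field
`L` of `ℚ[x, y]/(y² - f)` there are two classes in `K_2(L) ⊗ ℚ`, unramified at all discrete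
valuations of `L`, and two loops in the spectrum of `L` such that the determinant of the
regulators of the classes along the loops is different from zero. -/
theorem result (H : MvPolynomial (Fin 7) ℚ) (hH : H ≠ 0) :
    ∃ f : ℚ[X], f.natDegree = 6 ∧ Squarefree f ∧
      MvPolynomial.eval (fun i : Fin 7 => f.coeff i) H ≠ 0 ∧
      IsDomain (AdjoinRoot (X ^ 2 - C f : ℚ[X][X])) ∧
      ∀ (L : Type) [Field L] [Algebra (AdjoinRoot (X ^ 2 - C f : ℚ[X][X])) L]
        [IsFractionRing (AdjoinRoot (X ^ 2 - C f : ℚ[X][X])) L],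
        ∃ w : Fin 2 → KQ L 2, (∀ j, w j ∈ Unramified L 2) ∧
          ∃ Γ : Fin 2 → Torus L 1, (Matrix.of fun i j => (Γ i).reg (w j)).det ≠ 0 := by
  set s : ℕ := 2 ^ 73 with hs
  have hs2 : 2 ≤ s := by rw [hs]; norm_num
  obtain ⟨a, ha, m, hm, hne⟩ := dens hs2 (H := H * MvPolynomial.X 6)
    (mul_ne_zero hH (MvPolynomial.X_ne_zero _))
  set ε : Fin (2 + 1) → ℤˣ := fun _ => 1 with hε
  set b : Fin (2 + 1) → ℕ := fun i => a i + 1 with hb
  have hal : (fun i : Fin 3 => (s : ℚ) ^ (a i + 1)) = al s ε b := by
    funext i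
    unfold al
    simp [hε, hb]
  rw [hal] at hne
  set f : ℚ[X] := fam 2 (al s ε b) m with hf
  rw [map_mul, MvPolynomial.aeval_X] at hne
  have hH' : MvPolynomial.eval (fun i : Fin 7 => f.coeff i) H ≠ 0 := by
    have h1 := left_ne_zero_of_mul hne
    rw [MvPolynomial.aeval_def, MvPolynomial.eval₂_eq_eval_map] at h1
    simpa using h1
  have h6 : f.coeff 6 ≠ 0 := right_ne_zero_of_mul hne
  have hdeg : f.natDegree = 6 :=
    le_antisymm (natDegree_fam_le (by norm_num) 2 (al s ε b) m) (le_natDegree_of_ne_zero h6)
  have hinj : Function.Injective fun i => (ε i, b i) := by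
    intro i j hij
    have h1 : b i = b j := (Prod.ext_iff.1 hij).2
    exact ha (Nat.succ_injective h1)
  have hbig : 2 ^ (8 * (2 + 1) ^ 2) < s ^ b 0 := by
    calc 2 ^ (8 * (2 + 1) ^ 2) < s := by rw [hs]; norm_num
      _ = s ^ 1 := (pow_one s).symm
      _ ≤ s ^ b 0 := Nat.pow_le_pow_right (by omega) (by simp [hb])
  set σ : ℚ →+* ℂ := algebraMap ℚ ℂ
  have hSp : Sp fun i => σ (al s ε b i) := by
    refine Sp.mk' (by norm_num) (fun i => ?_) (fun i j hij => sep_al hs2 hinj σ hij) (m := 0) ?_
    · rw [norm_al]
      exact one_le_pow₀ (by exact_mod_cast (by omega : 1 ≤ s))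
    · rw [norm_al]
      exact_mod_cast hbig.le
  have hsq : Squarefree f := sqf_fam σ hSp (by norm_num) hm
  refine ⟨f, hdeg, hsq, hH', isDomain_HRing σ hsq (by omega), ?_⟩
  intro L _ _ _
  exact qfam (g := 2) (by norm_num) hs2 hinj (p := 0) hbig (t := 2) (by norm_num) hm
    (by rw [← hf]; omega) L

end Pool.Agent.Results.MP_a09a03_nt.GenusTwoZariskiDense
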