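import Pool.Agent.H442.QFam
import Pool.Agent.H442.Dens2
set_option autoImplicit false

/-!
Beilinson's regulator for the integral part of `K_2` of hyperelliptic curves over the rational
numbers: for every `g ≥ 1` the curves `y² = f(x)`, `deg f = 2g + 2`, which have a class in the
integral part of `K_2` with nonzero regulator are Zariski dense in the space of all polynomials
of degree `2g + 2`, hence in the moduli space of all hyperelliptic curves of genus `g`.

The curves are `z + 1/z = 2 + X R(X) / D(X)`, `X = μ x + ν`, with `D = ∏_{l ≤ g} (X - β_l)` for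
different prime numbers `β_l`, and `R` the monic polynomial of degree `g` with `R ≡ X^j mod D`;
the class is the symbol `{z, R(X) / X^j}`.
-/

namespace Pool.Agent.Results.MP_a09a03_nt.HyperellipticDensity

open Polynomial

open Pool.Agent.TH826.MK (KQ Unramified Torus)

open Pool.Agent.H442

/-- For every `g ≥ 1` and every nonzero polynomial `H` in the `2g + 3` coefficients of a polynomial
of degree `2g + 2` there is a squarefree `f ∈ ℚ[x]` of degree `2g + 2` whose coefficients are not a
zero of `H`, such that for every fraction field `L` of `ℚ[x, y]/(y² - f)` there is a class in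
`K_2(L) ⊗ ℚ`, unramified at all discrete valuations of `L`, and a loop in the spectrum of `L` such
that the regulator of the class along the loop is different from zero. -/
theorem result (g : ℕ) (hg : 1 ≤ g) (H : MvPolynomial (Fin (2 * g + 3)) ℚ) (hH : H ≠ 0) :
    ∃ f : ℚ[X], f.natDegree = 2 * g + 2 ∧ Squarefree f ∧
      MvPolynomial.eval (fun i : Fin (2 * g + 3) => f.coeff i) H ≠ 0 ∧
      IsDomain (AdjoinRoot (X ^ 2 - C f : ℚ[X][X])) ∧
      ∀ (L : Type) [Field L] [Algebra (AdjoinRoot (X ^ 2 - C f : ℚ[X][X])) L]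
        [IsFractionRing (AdjoinRoot (X ^ 2 - C f : ℚ[X][X])) L],
        ∃ w : KQ L 2, w ∈ Unramified L 2 ∧ ∃ Γ : Torus L 1, Γ.reg w ≠ 0 := by
  obtain ⟨Δ, hΔ0, hΔ⟩ := exists_disc (2 * g + 2) (by omega)
  have h0 : H * Δ * MvPolynomial.X (Fin.last (2 * g + 2)) ≠ 0 :=
    mul_ne_zero (mul_ne_zero hH hΔ0) (MvPolynomial.X_ne_zero _)
  have hV : ¬ Van g (H * Δ * MvPolynomial.X (Fin.last (2 * g + 2))) := fun h => h0 (dens2 h)
  unfold Van at hV
  push Not at hV
  obtain ⟨β, hβ, hp, hV⟩ := hV
  obtain ⟨j₀, hj₀⟩ := spec2 hg hβ (fun l => (hp l).two_le) (t := 2) (by norm_num)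
  obtain ⟨j, hj, κ, μ, ν, hκ, hμ, hne⟩ := hV j₀
  have h1 := hj₀ j hj _ _ rfl rfl κ μ ν hκ hμ
  have hdA : (X * (Rz β j).map (algebraMap ℤ ℚ)).natDegree ≤ g + 1 := by
    refine (natDegree_mul_le).trans ?_
    rw [natDegree_X]
    have h2 := natDegree_map_le (f := algebraMap ℤ ℚ) (p := Rz β j)
    rw [Rz_natDegree] at h2
    omega
  have hdD : ((Dz β).map (algebraMap ℤ ℚ)).natDegree ≤ g := by
    have h2 := natDegree_map_le (f := algebraMap ℤ ℚ) (p := Dz β)
    rw [Dz_natDegree] at h2
    exact h2
  generalize X * (Rz β j).map (algebraMap ℤ ℚ) = A at *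
  generalize (Dz β).map (algebraMap ℤ ℚ) = D at *
  have hdeg : (fc 2 A D κ μ ν).natDegree ≤ 2 * g + 2 := by
    unfold fc
    refine (natDegree_mul_le).trans ?_
    have e1 : (C κ ^ 2 : ℚ[X]).natDegree = 0 := by rw [← C_pow, natDegree_C]
    have e2 : (((A + ((2 : ℤ) : ℚ[X]) * D) ^ 2 - 4 * D ^ 2).comp
        (C μ * X + C ν)).natDegree ≤ 2 * g + 2 := by
      refine (natDegree_comp_le).trans ?_
      have e3 : (C μ * X + C ν : ℚ[X]).natDegree = 1 := natDegree_linear hμ
      rw [e3, mul_one]
      refine (natDegree_sub_le _ _).trans (max_le ?_ ?_)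
      · refine (natDegree_pow_le).trans ?_
        have e4 : (A + ((2 : ℤ) : ℚ[X]) * D).natDegree ≤ g + 1 := by
          refine (natDegree_add_le _ _).trans (max_le hdA ?_)
          refine (natDegree_mul_le).trans ?_
          rw [natDegree_intCast]
          omega
        omega
      · refine (natDegree_mul_le).trans ?_
        have e4 : (4 : ℚ[X]).natDegree = 0 := natDegree_ofNat 4
        have e5 : (D ^ 2).natDegree ≤ 2 * g := (natDegree_pow_le).trans (by omega)
        omega
    omega
  generalize fc 2 A D κ μ ν = f at *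
  rw [map_mul, map_mul, MvPolynomial.aeval_X] at hne
  have hlast : f.coeff (2 * g + 2) ≠ 0 := right_ne_zero_of_mul hne
  have hH' : MvPolynomial.eval (fun i : Fin (2 * g + 3) => f.coeff i) H ≠ 0 := by
    have h2 := left_ne_zero_of_mul (left_ne_zero_of_mul hne)
    rw [MvPolynomial.aeval_def, MvPolynomial.eval₂_eq_eval_map] at h2
    simpa using h2
  have hsq : Squarefree f := hΔ f hdeg (right_ne_zero_of_mul (left_ne_zero_of_mul hne))
  have hdeg' : f.natDegree = 2 * g + 2 := le_antisymm hdeg (le_natDegree_of_ne_zero hlast)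
  refine ⟨f, hdeg', hsq, hH', isDomain_HRing (algebraMap ℚ ℂ) hsq (by omega), ?_⟩
  intro L _ _ _
  obtain ⟨z, w, hzw, Γ, hΓ⟩ := h1 hsq (by omega) L
  exact ⟨_, hzw, Γ, hΓ⟩

end Pool.Agent.Results.MP_a09a03_nt.HyperellipticDensity
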