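import Pool.Agent.H510.K2S.Joint3
set_option autoImplicit false

/-!
Integral elements of `K_2` of the hyperelliptic curves `X : y² = D(x)` of genus `g` over a number
field `K` for which the Pell equation `P² - D Q² = 1` has a solution with nonconstant `P` such that
the coefficients of `2 P` are algebraic integers and the leading coefficient of `2 P` is a unit.
For embeddings `σ_i : K → ℂ` there are a finite extension `L` of `K` and extensions of the `σ_i` to
`L` such that the vectors of the regulators, at all these places jointly, of elements of the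
integral part of `H²(X_L, ℚ(2))` generate a subspace of codimension at most `∑ k_i` of
`⨁ H¹(X_{σ_i}(ℂ), ℝ(1))`. Here `k_i` is the maximal number of the critical points `v` with
`|G(v)| > 1` of the polynomials `G` that are real rooted over (a dense part of) `(-1, 1)` and such
that `P^{σ_i} = G(w)` for a polynomial `w`. (Such a decomposition is a covering of a real
hyperelliptic curve with the maximal number of ovals by `X` over `σ_i`.) In particular, the
regulators generate the whole space if, at each place, `P^{σ_i}` is not a composition of nonlinear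
polynomials and the preimage of an interval in `(-1, 1)` is never contained in a line.
-/

namespace Pool.Agent.Results.MP_a09a03_nt.PellRealQuotients

open Polynomial

open Pool.Agent.TH826.MK (KQ symb Torus Unramified)

open Pool.Agent.Y94.R Pool.Agent.H510.K2S

/-- Let `K` be a number field with embeddings `σ_i`, `1 ≤ i ≤ e`, into `ℂ`. Let `D ∈ K[x]` be
squarefree of degree `2 g + 2`, and let `P² - D Q² = 1`, where `P ∈ K[x]` is not constant, the
coefficients of `2 P` are algebraic integers and the inverse of the leading coefficient of `2 P` is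
an algebraic integer, too. Let `P' = r Q`.

A complex polynomial `G` is called real rooted if there is a nonempty open interval
`I ⊆ (-1, 1)` such that all complex solutions of `G(v) = t`, `t ∈ I`, are real. Let `N(G)` be the
number of the critical points `v` of `G` with `|Re G(v)| > 1` (for real rooted `G`, the critical
points and the critical values are real).

(1) If `P^{σ_i} = G(w)` with a real rooted `G`, then `N(G)` is at most the number `nbad` of the
roots `β` of `r^{σ_i}`, counted with multiplicities, such that `P^{σ_i}(β)` is real and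
`|P^{σ_i}(β)| > 1`, and `nbad ≤ g`.

(2) If `P^{σ_i}` is not a composition of two polynomials of degree at least two and the preimage
under `P^{σ_i}` of no nonempty open interval `I ⊆ (-1, 1)` is contained in a line, then `N(G) = 0`
for all real rooted `G` such that `P^{σ_i} = G(w)` for some `w`.

(3) For each `i` let `γ_{i,l} = (x_{i,l}, y_{i,l})`, `1 ≤ l ≤ m_i`, be loops in the complex points
of the curve `y² = D^{σ_i}(x)` with `y_{i,l} ≠ 0`, whose period vectors `(∫ x^j dx / y)_{j < g}` are
linearly independent over `ℝ` (for each `i`), and that avoid the zeros of `r^{σ_i}(x)` and the zeros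
of `P^{σ_i}(x) - t_i` for some `t_i ∈ (-1, 1)`. Let `k_i` be natural numbers such that
`N(G) ≤ k_i` whenever `P^{σ_i} = G(w)` and all complex solutions of `G(v) = t` are real for all
`t ∈ (-1, 1)` that are not values of `P^{σ_i}` on the loops `γ_{i,l}` (by (1), `k_i = g` is
possible, and by (2), `k_i = 0` in the situation considered there). Let `n = ∑ m_i - ∑ k_i`. Then
there are a number field `L`, an embedding `j : K → L`, embeddings `τ_i : L → ℂ` with
`τ_i ∘ j = σ_i`, and `n + 1` algebraic integers `b_k ∈ L` such that all `2 P(b_k)` are sums `ζ + 1/ζ` with roots of unity `ζ`,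
such that the symbols `{P(x) + Q(x) y, (x - b_k) / (x - b_l)}` in `K_2` of the function field of
the curve `y² = D(x)` over `L` are unramified at all discrete valuations of the function field
(also at those that are not trivial on `L`), and such that the `n` vectors, with `∑ m_i`
components, of the regulators of the symbols `{P(x) + Q(x) y, (x - b_k) / (x - b_0)}`,
`1 ≤ k ≤ n`, on the loops `γ_{i,l}` in the complex points of the curve over `τ_i`, for all `i` and
`l`, are linearly independent over `ℝ`. -/
theorem result.{u, v} (K : Type u) [Field K] [NumberField K] (g : ℕ) (D P Q r : K[X])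
    (h : PellEq g D P Q r) (hP : IntegralPell P) (e : ℕ) (σ : Fin e → K →+* ℂ) :
    (∀ i (G w : ℂ[X]), P.map (σ i) = G.comp w → RealRooted G →
      (OutCrit G).ncard ≤ nbad (P.map (σ i)) (r.map (σ i)) ∧
        nbad (P.map (σ i)) (r.map (σ i)) ≤ g) ∧
    (∀ i, (∀ G w : ℂ[X], P.map (σ i) = G.comp w → G.natDegree = 1 ∨ w.natDegree = 1) →
      (∀ (α β : ℂ) (a b : ℝ), α ≠ 0 → -1 ≤ a → a < b → b ≤ 1 →
        ∃ (t : ℝ) (x : ℂ), a < t ∧ t < b ∧ (P.map (σ i)).eval x = t ∧ (α * x + β).im ≠ 0) →
      ∀ G w : ℂ[X], P.map (σ i) = G.comp w → RealRooted G → (OutCrit G).ncard = 0) ∧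
    ∀ (m : Fin e → ℕ) (γ : ∀ i, Fin (m i) → Lp (D.map (σ i))),
      (∀ i, IndepPeriods g (γ i)) → (∀ i, GenPos (P.map (σ i)) (r.map (σ i)) (γ i)) →
      ∀ k : Fin e → ℕ, (∀ i (G w : ℂ[X]), P.map (σ i) = G.comp w → (∀ t : ℝ, |t| < 1 →
        (∀ l s, (P.map (σ i)).eval ((γ i l).x s) ≠ t) → ∀ v : ℂ, G.eval v = t → v.im = 0) →
          (OutCrit G).ncard ≤ k i) →
      ∀ n : ℕ, n + ∑ i, k i = ∑ i, m i →
        ∃ (L : Type u) (_ : Field L) (_ : NumberField L) (j : K →+* L) (τ : Fin e → L →+* ℂ)
          (b : Fin (n + 1) → L) (hL : P.map j ^ 2 - D.map j * Q.map j ^ 2 = 1),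
          (∀ i, (τ i).comp j = σ i) ∧ (∀ k, IsIntegral ℤ (b k)) ∧
          (∀ i k, Special (P.map (σ i)) (τ i (b k))) ∧ IsDomain (HRing (D.map j)) ∧
          AllUnramified.{u, v} hL b ∧
          ∃ Γ : ∀ i, Fin (m i) → Torus (HOpen (D.map j) b) 1,
            (∀ i, LiesOver (τ i) b (γ i) (Γ i)) ∧
            LinearIndependent ℝ fun (k : Fin n) (p : Σ i, Fin (m i)) =>
              (Γ p.1 p.2).reg (symb (hent b hL k.succ 0)) := by
  refine ⟨fun i G w hPG hG => ⟨ncard_outCrit_le (h.pell (σ i)) hPG hG, nbad_le h (σ i)⟩, ?_, ?_⟩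
  · intro i hindec hline G w hPG hG
    have hne : (OutCrit G) = ∅ := by
      rcases hindec G w hPG with h1 | h1
      · rw [Set.eq_empty_iff_forall_notMem]
        intro v hv
        obtain ⟨a, ha, b, hab⟩ := natDegree_eq_one.1 h1
        have h2 := hv.1
        rw [← hab] at h2
        simp at h2
        exact ha h2
      · exfalso
        obtain ⟨α, hα, β, hw⟩ := natDegree_eq_one.1 h1
        obtain ⟨a, b, ha, hab, hb, hroots⟩ := hG
        obtain ⟨t, x, ht1, ht2, hx, him⟩ := hline α β a b hα ha hab hb
        refine him (hroots t ht1 ht2 _ ?_)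
        rw [← hx, hPG, eval_comp, ← hw]
        simp
    rw [hne, Set.ncard_empty]
  intro m γ hγ hgp k hk n hn
  obtain ⟨τ, hτ, hind⟩ := exists_embeddings e σ
  have hcA : CharZero (AlgebraicClosure K) :=
    charZero_of_injective_algebraMap (algebraMap K (AlgebraicClosure K)).injective
  choose hoffr t ht hofft using hgp
  obtain ⟨β, hβ1, hβ2, hβ3⟩ := core_joint' γ hτ hind (fun i => h.pell (σ i)) h.pos
    (fun i => h.squarefree_map (σ i))
    (fun i l β hβ t ht => hoffr i l t (by rw [sub_eq_zero.1 ht, hβ])) ht
    (fun i b hb l s hs => hofft i l s (by rw [sub_eq_zero.1 hs, hb]))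
    (fun i c hc => by
      rw [h.natDegree_r (σ i)]
      exact periods (γ i) (hγ i) c hc) k hk hn
  obtain ⟨L, b, hnf, hb, hbi⟩ := exists_subfield (K := K) β fun k => (hβ1 k).isIntegral hP h.pos
  let s₀ : K →+* ℂ := Classical.arbitrary _
  obtain ⟨s, hs, -⟩ := exists_embedding (A := AlgebraicClosure K) (ι := Empty) s₀
    (fun _ => 1) (fun _ => one_ne_zero) (fun _ _ => 1)
  have hval : ∀ f : AlgebraicClosure K →+* ℂ,
      (f.comp (algebraMap L (AlgebraicClosure K))).comp (algebraMap K L) =
        f.comp (algebraMap K (AlgebraicClosure K)) := fun f => rfl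
  obtain ⟨hL, hdom, hunr⟩ := h.assemble hP (algebraMap K L)
    (s.comp (algebraMap L (AlgebraicClosure K))) b hbi fun k => by
      rw [hval]
      have h1 := (hβ1 k).special (τ := s) rfl
      rw [← hb k] at h1
      exact h1
  have hτb : ∀ i k, ((τ i).comp (algebraMap L (AlgebraicClosure K))) (b k) = τ i (β k) :=
    fun i k => congrArg (τ i) (hb k)
  choose Γ hΓ1 hΓ2 using fun i => exists_tori_reg hL (r := r.map (algebraMap K L))
    (s := (τ i).comp (algebraMap L (AlgebraicClosure K))) (h.pell (σ i))
    (by rw [Polynomial.map_map, hval, hτ]) (by rw [Polynomial.map_map, hval, hτ])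
    (by rw [Polynomial.map_map, hval, hτ]) (by rw [Polynomial.map_map, hval, hτ]) (γ i) b
    (fun k l => by
      rw [hτb]
      exact hβ2 k i l)
  refine ⟨L, inferInstance, hnf, algebraMap K L,
    fun i => (τ i).comp (algebraMap L (AlgebraicClosure K)), b, hL,
    fun i => by rw [hval, hτ], hbi, fun i k => ?_, hdom, hunr, Γ, hΓ1, ?_⟩
  · rw [hτb]
    exact (hβ1 k).special (hτ i)
  · have h1 : (fun (k : Fin n) (p : Σ i, Fin (m i)) =>
        (Γ p.1 p.2).reg (symb (hent b hL k.succ 0))) =
        fun (k : Fin n) (p : Σ i, Fin (m i)) =>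
          (γ p.1 p.2).rho (P.map (σ p.1)) (Q.map (σ p.1)) (τ p.1 (β k.succ)) -
          (γ p.1 p.2).rho (P.map (σ p.1)) (Q.map (σ p.1)) (τ p.1 (β 0)) := by
      funext k p
      rw [hΓ2 p.1 p.2 k.succ 0, hτb, hτb]
    rw [h1]
    exact hβ3

end Pool.Agent.Results.MP_a09a03_nt.PellRealQuotients
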